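import Mathlib
import Pool.Agent.Helper65.HF.StN

/-!
Project HF, MODULE GAP: behaviour of `thr` near its least zero.
-/

namespace Pool.Agent.Helper53.HF

open Pool.Agent.Helper45 Pool.Agent.Helper65.HF

theorem gap_pos {j d : ℕ} {cs : ℝ} (hj : 2 ≤ j) (h : IsZ j d cs) {c : ℕ} (hc : c < d) {x : ℝ}
    (h0 : 0 ≤ x) (hx : x ≤ cs) : 0 < thr j c x := by
  rcases lt_or_eq_of_le hx with hlt | heq
  · exact thr_pos_of_pos (by omega) d x
      (fun s hs0 hsx => h.2.2 s hs0 (lt_of_le_of_lt hsx hlt)) c hc.le x h0 le_rfl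
  · rw [heq]
    exact isZ_pos hj d cs h c hc

theorem gap_one {j d : ℕ} {cs : ℝ} (hj : 2 ≤ j) (h : IsZ j d cs) {c : ℕ} (hc : c < d) :
    ∃ η c1 : ℝ, 0 < η ∧ 0 < c1 ∧ ∀ x, 0 ≤ x → x ≤ cs + η → c1 ≤ thr j c x := by
  have hcont := continuous_thr j c
  obtain ⟨x0, hx0, hmin⟩ := (isCompact_Icc (a := (0 : ℝ)) (b := cs)).exists_isMinOn
    ⟨0, by constructor <;> linarith [h.1]⟩ hcont.continuousOn
  have hm : 0 < thr j c x0 := gap_pos hj h hc hx0.1 hx0.2
  set m := thr j c x0 with hmdef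
  have hcsm : m ≤ thr j c cs := hmin (show cs ∈ Set.Icc (0 : ℝ) cs from ⟨h.1.le, le_rfl⟩)
  obtain ⟨δ, hδ, hδ2⟩ :=
    Metric.continuousAt_iff.1 (hcont.continuousAt (x := cs)) (m / 2) (by linarith)
  refine ⟨δ / 2, m / 2, by linarith, by linarith, ?_⟩
  intro x h0 hx
  rcases le_or_gt x cs with hxc | hxc
  · have h1 : m ≤ thr j c x := hmin (show x ∈ Set.Icc (0 : ℝ) cs from ⟨h0, hxc⟩)
    linarith
  · have h1 : dist x cs < δ := by
      rw [Real.dist_eq, abs_of_pos (by linarith)]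
      linarith
    have h2 := hδ2 h1
    rw [Real.dist_eq, abs_lt] at h2
    linarith [h2.1]

theorem gap_all {j d : ℕ} {cs : ℝ} (hj : 2 ≤ j) (h : IsZ j d cs) (n : ℕ) (hn : n ≤ d) :
    ∃ η c1 : ℝ, 0 < η ∧ 0 < c1 ∧ ∀ c < n, ∀ x, 0 ≤ x → x ≤ cs + η → c1 ≤ thr j c x := by
  induction n with
  | zero => exact ⟨1, 1, one_pos, one_pos, fun c hc => absurd hc (Nat.not_lt_zero c)⟩
  | succ n ih =>
    obtain ⟨η1, a1, hη1, ha1, h1⟩ := ih (by omega)
    obtain ⟨η2, a2, hη2, ha2, h2⟩ := gap_one hj h (c := n) (by omega)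
    refine ⟨min η1 η2, min a1 a2, lt_min hη1 hη2, lt_min ha1 ha2, ?_⟩
    intro c hc x h0 hx
    rcases Nat.lt_or_ge c n with hcn | hcn
    · exact (min_le_left _ _).trans
        (h1 c hcn x h0 (hx.trans (by linarith [min_le_left η1 η2])))
    · have : c = n := by omega
      rw [this]
      exact (min_le_right _ _).trans (h2 x h0 (hx.trans (by linarith [min_le_right η1 η2])))

theorem gap_bdd (j : ℕ) (B : ℝ) (n : ℕ) :
    ∃ C : ℝ, 0 < C ∧ ∀ c < n, ∀ x, 0 ≤ x → x ≤ B → |thr j c x| ≤ C := by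
  induction n with
  | zero => exact ⟨1, one_pos, fun c hc => absurd hc (Nat.not_lt_zero c)⟩
  | succ n ih =>
    obtain ⟨C1, hC1, h1⟩ := ih
    obtain ⟨C2, h2⟩ := (isCompact_Icc (a := (0 : ℝ)) (b := B)).exists_bound_of_continuousOn
      (continuous_thr j n).continuousOn
    refine ⟨max C1 C2, lt_of_lt_of_le hC1 (le_max_left _ _), ?_⟩
    intro c hc x h0 hx
    rcases Nat.lt_or_ge c n with hcn | hcn
    · exact (h1 c hcn x h0 hx).trans (le_max_left _ _)
    · have : c = n := by omega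
      rw [this]
      have := h2 x ⟨h0, hx⟩
      rw [Real.norm_eq_abs] at this
      exact this.trans (le_max_right _ _)

/-- MODULE GAP. -/
theorem hGAP : sGAP := by
  intro j d cs hj h
  have hjd := isZ_le h
  obtain ⟨η, c1, hη, hc1, h1⟩ := gap_all hj h d le_rfl
  obtain ⟨C2, hC2, h2⟩ := gap_bdd j (cs + η) (d + 1)
  have hder : ∀ x, HasDerivAt (thr j d) (-thr j (d - j) x) x := by
    intro x
    have h3 := hasDerivAt_thr (by omega : 1 ≤ j) d x
    rw [if_pos hjd] at h3
    exact h3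
  have hcs := h.1
  have hanti : AntitoneOn (fun x => thr j d x + c1 * x) (Set.Icc 0 (cs + η)) := by
    have hd : ∀ x, HasDerivAt (fun x => thr j d x + c1 * x) (-thr j (d - j) x + c1 * 1) x :=
      fun x => (hder x).add ((hasDerivAt_id x).const_mul c1)
    refine antitoneOn_of_deriv_nonpos (convex_Icc _ _)
      (fun x _ => (hd x).continuousAt.continuousWithinAt)
      (fun x _ => (hd x).differentiableAt.differentiableWithinAt) ?_
    intro x hx
    rw [interior_Icc] at hx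
    rw [(hd x).deriv]
    have h3 := h1 (d - j) (by omega) x hx.1.le hx.2.le
    linarith
  have hmono : MonotoneOn (fun x => thr j d x + C2 * x) (Set.Icc 0 (cs + η)) := by
    have hd : ∀ x, HasDerivAt (fun x => thr j d x + C2 * x) (-thr j (d - j) x + C2 * 1) x :=
      fun x => (hder x).add ((hasDerivAt_id x).const_mul C2)
    refine monotoneOn_of_deriv_nonneg (convex_Icc _ _)
      (fun x _ => (hd x).continuousAt.continuousWithinAt)
      (fun x _ => (hd x).differentiableAt.differentiableWithinAt) ?_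
    intro x hx
    rw [interior_Icc] at hx
    rw [(hd x).deriv]
    have h3 := h2 (d - j) (by omega) x hx.1.le hx.2.le
    have h4 := (abs_le.1 h3).2
    linarith
  have hz := h.2.1
  refine ⟨η, c1, C2, hη, hc1, hC2, h1, ?_, ?_, ?_, ?_⟩
  · intro x h0 hx
    have hxm : x ∈ Set.Icc 0 (cs + η) := ⟨h0, by linarith⟩
    have hcm : cs ∈ Set.Icc 0 (cs + η) := ⟨hcs.le, by linarith⟩
    have ha := hanti hxm hcm hx
    have hb := hmono hxm hcm hx
    simp only [hz] at ha hb
    constructor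
    · linarith
    · linarith
  · intro x hx hx2
    have hxm : x ∈ Set.Icc 0 (cs + η) := ⟨by linarith, hx2⟩
    have hcm : cs ∈ Set.Icc 0 (cs + η) := ⟨hcs.le, by linarith⟩
    have ha := hanti hcm hxm hx
    simp only [hz] at ha
    linarith
  · intro c hc x h0 hx
    exact h2 c (by omega) x h0 hx
  · intro c cs' _ hcd hZ'
    by_contra hcon
    push Not at hcon
    have h3 := h1 c hcd cs' hZ'.1.le hcon
    rw [hZ'.2.1] at h3
    linarith

end Pool.Agent.Helper53.HF
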