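import Mathlib
import Pool.Agent.Helper65.HF.StN

/-!
Project HF, MODULE STP: the induction step below the threshold.
-/

namespace Pool.Agent.Helper53.HF

open Pool.Agent.Helper45 Pool.Agent.Helper65.HF

theorem stp_wd_nonneg (p M : ℕ) : 0 ≤ wd p M := by
  unfold wd
  positivity

theorem stp_wd_mul {p q M : ℕ} : wd p M * (M : ℝ) ^ q = wd (p + q) M := by
  unfold wd
  rw [pow_add]
  ring

theorem stp_pow_le_wd (p M : ℕ) (hM : 2 ≤ M) : (M : ℝ) ^ p ≤ 2 * wd p M := by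
  unfold wd
  have hM2 : (2 : ℝ) ≤ M := by exact_mod_cast hM
  have h1 : (1 : ℝ) / 2 ≤ Real.log M := by
    have h2 : Real.log 2 ≤ Real.log M := Real.log_le_log (by norm_num) hM2
    have h3 := Real.log_two_gt_d9
    linarith
  have h4 : (1 : ℝ) ≤ M * Real.log M := by nlinarith
  have h5 : (1 : ℝ) ≤ Real.sqrt (M * Real.log M) := Real.one_le_sqrt.2 h4
  have h6 : (0 : ℝ) ≤ (M : ℝ) ^ p := by positivity
  nlinarith

theorem stp_bern (cs : ℝ) (hcs : 0 ≤ cs) (j d M r : ℕ) (hj : 1 ≤ j) (hjd : j < d) (hM : 1 ≤ M)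
    (hr : cs * ((M : ℝ) - 1) ^ j < r) :
    (cs - (r : ℝ) / (M : ℝ) ^ j) * (M : ℝ) ^ d ≤ cs * j * (M : ℝ) ^ (d - 1) := by
  have hM1 : (1 : ℝ) ≤ M := by exact_mod_cast hM
  have hM0 : (0 : ℝ) < M := by linarith
  have h1 : (M : ℝ) ^ d = (M : ℝ) ^ j * (M : ℝ) ^ (d - j) := by
    rw [← pow_add]
    congr 1
    omega
  have h2 : (cs - (r : ℝ) / (M : ℝ) ^ j) * (M : ℝ) ^ d =
      (cs * (M : ℝ) ^ j - r) * (M : ℝ) ^ (d - j) := by
    rw [h1]
    field_simp
  have h3 : 1 + (j : ℝ) * (-1 / (M : ℝ)) ≤ (1 + -1 / (M : ℝ)) ^ j := by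
    refine one_add_mul_le_pow ?_ j
    rw [le_div_iff₀ hM0]
    linarith
  have h4 : (M : ℝ) ^ j = (M : ℝ) ^ (j - 1) * M := by
    rw [← pow_succ]
    congr 1
    omega
  have h5 : ((M : ℝ) - 1) ^ j = (M : ℝ) ^ j * (1 + -1 / (M : ℝ)) ^ j := by
    rw [← mul_pow]
    congr 1
    field_simp
    ring
  have h6 : (M : ℝ) ^ j - j * (M : ℝ) ^ (j - 1) ≤ ((M : ℝ) - 1) ^ j := by
    rw [h5]
    have h7 := mul_le_mul_of_nonneg_left h3 (by positivity : (0 : ℝ) ≤ (M : ℝ) ^ j)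
    have h8 : (M : ℝ) ^ j * (1 + (j : ℝ) * (-1 / (M : ℝ))) =
        (M : ℝ) ^ j - j * (M : ℝ) ^ (j - 1) := by
      rw [h4]
      field_simp
      ring
    linarith
  have h9 : cs * (M : ℝ) ^ j - r ≤ cs * (j * (M : ℝ) ^ (j - 1)) := by
    have := mul_le_mul_of_nonneg_left h6 hcs
    linarith
  rw [h2]
  have h10 : (M : ℝ) ^ (d - 1) = (M : ℝ) ^ (j - 1) * (M : ℝ) ^ (d - j) := by
    rw [← pow_add]
    congr 1
    omega
  calc (cs * (M : ℝ) ^ j - r) * (M : ℝ) ^ (d - j)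
      ≤ cs * (j * (M : ℝ) ^ (j - 1)) * (M : ℝ) ^ (d - j) :=
        mul_le_mul_of_nonneg_right h9 (by positivity)
    _ = cs * j * (M : ℝ) ^ (d - 1) := by rw [h10]; ring

theorem stp_choose (M d : ℕ) (hM : 1 ≤ M) :
    (((M + d - 1).choose d : ℕ) : ℝ) ≤ (1 + (d : ℝ)) ^ d * (M : ℝ) ^ d := by
  have h1 : (M + d - 1).choose d ≤ ((1 + d) * M) ^ d := by
    refine (Nat.choose_le_pow _ _).trans (Nat.pow_le_pow_left ?_ d)
    have h2 : d * 1 ≤ d * M := Nat.mul_le_mul_left d hM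
    have h3 : (1 + d) * M = M + d * M := by ring
    omega
  calc (((M + d - 1).choose d : ℕ) : ℝ) ≤ ((((1 + d) * M) ^ d : ℕ) : ℝ) := by exact_mod_cast h1
    _ = (1 + (d : ℝ)) ^ d * (M : ℝ) ^ d := by push_cast; rw [mul_pow]

/-- MODULE STP. -/
theorem hSTP : sSTP := by
  intro hHUP hREC hEEB hTTB hSUB k _ _ j d hj hjd hB cs hcs
  obtain ⟨η, c1, C2, M1, hη, hc1, hC2, hM1, hE1, hE2, hE3, hE4, hE5⟩ := hEEB j d cs hj hcs
  obtain ⟨C1, M2, hC1, hT⟩ := hTTB k j d cs η hj hjd hη hcs hE5 hB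
  obtain ⟨hR1, hR2, hR3, hR4⟩ := hREC
  have hcs0 := hcs.1
  have hd1 : 1 ≤ d := by omega
  have hup : ∀ M r : ℕ, (r : ℝ) ≤ cs * (M : ℝ) ^ j → (r : ℝ) ≤ (cs + η) * (M : ℝ) ^ j := by
    intro M r h
    have : 0 ≤ η * (M : ℝ) ^ j := by positivity
    linarith
  set D2 : ℝ := C2 + C2 + (1 + (d : ℝ)) ^ d + C2 * cs * j with hD2
  have hp1 : 0 ≤ (1 + (d : ℝ)) ^ d := by positivity
  have hp2 : 0 ≤ C2 * cs * j := by positivity
  have hD21 : 1 ≤ D2 := by linarith
  have hD2C : C2 ≤ D2 := by linarith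
  have he0 : ∀ M : ℕ, exs k j d M 0 = 0 := by
    intro M
    unfold exs
    have h1 := (hHUP k j M 0 d (by omega)).2.1
    rw [h1, hR4]
    push_cast
    ring
  have hmain := hSUB j d cs c1 C1 D2 (max M1 (max M2 1)) (exs k j d)
    (fun M r => (EE j M r (d - j) : ℝ)) (fun M r => (EE j M r (d - 1) : ℝ))
    (fun M r => (EE j M r d : ℝ)) hj hjd hcs0 hc1 hC1 hD21 ?_ ?_ ?_ ?_ ?_ ?_ ?_ ?_
  · obtain ⟨C, M0, hC⟩ := hmain
    have hlow : ∀ M : ℕ, M2 ≤ M → ∀ r : ℕ, (r : ℝ) ≤ cs * (M : ℝ) ^ j → 0 ≤ exs k j d M r := by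
      intro M hM r
      induction r with
      | zero => intro _; rw [he0]
      | succ r ih =>
        intro hr
        have hr' : (r : ℝ) ≤ cs * (M : ℝ) ^ j := by
          push_cast at hr
          linarith
        have h1 := ih hr'
        have h2 := (hT M hM r hr').2
        linarith
    refine ⟨(max C 0 + 2 * C2) / c1, max M0 (max M1 (max M2 2)), ?_⟩
    intro M hM r hr
    have hM0 : M0 ≤ M := (le_max_left _ _).trans hM
    have hMM1 : M1 ≤ M := ((le_max_left _ _).trans (le_max_right _ _)).trans hM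
    have hMM2 : M2 ≤ M :=
      (((le_max_left _ _).trans (le_max_right _ _)).trans (le_max_right _ _)).trans hM
    have hM2 : 2 ≤ M :=
      (((le_max_right _ _).trans (le_max_right _ _)).trans (le_max_right _ _)).trans hM
    have hMpos : (0 : ℝ) < M := by exact_mod_cast (by omega : 0 < M)
    have hC0 : 0 ≤ max C 0 := le_max_right _ _
    have hCC : 0 ≤ (max C 0 + 2 * C2) / c1 := by positivity
    have hw := stp_wd_nonneg (j - 1) M
    have hr' : (r : ℝ) ≤ cs * (M : ℝ) ^ j := by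
      have := mul_nonneg hCC hw
      linarith
    have h3 := (hE3 M r (by omega) hr').1
    have h4 : (M : ℝ) ^ d = (M : ℝ) ^ j * (M : ℝ) ^ (d - j) := by
      rw [← pow_add]
      congr 1
      omega
    have h5 : (cs - (r : ℝ) / (M : ℝ) ^ j) * (M : ℝ) ^ d =
        (cs * (M : ℝ) ^ j - r) * (M : ℝ) ^ (d - j) := by
      rw [h4]
      field_simp
    have h6 : (max C 0 + 2 * C2) / c1 * wd (d - 1) M ≤
        (cs - (r : ℝ) / (M : ℝ) ^ j) * (M : ℝ) ^ d := by
      rw [h5]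
      have h7 : wd (d - 1) M = wd (j - 1) M * (M : ℝ) ^ (d - j) := by
        rw [stp_wd_mul]
        congr 1
        omega
      rw [h7, ← mul_assoc]
      refine mul_le_mul_of_nonneg_right ?_ (by positivity)
      linarith
    have h7 : max C 0 * wd (d - 1) M + 2 * C2 * wd (d - 1) M ≤
        c1 * (cs - (r : ℝ) / (M : ℝ) ^ j) * (M : ℝ) ^ d := by
      have h8 := mul_le_mul_of_nonneg_left h6 hc1.le
      have h9 : c1 * ((max C 0 + 2 * C2) / c1 * wd (d - 1) M) =
          max C 0 * wd (d - 1) M + 2 * C2 * wd (d - 1) M := by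
        field_simp
      rw [h9] at h8
      linarith
    have h10 := stp_pow_le_wd (d - 1) M hM2
    have h11 : C2 * (M : ℝ) ^ (d - 1) ≤ 2 * C2 * wd (d - 1) M := by
      have := mul_le_mul_of_nonneg_left h10 (by linarith : 0 ≤ C2)
      linarith
    have h12 : C * wd (d - 1) M ≤ max C 0 * wd (d - 1) M :=
      mul_le_mul_of_nonneg_right (le_max_left _ _) (stp_wd_nonneg _ _)
    have h13 : C * wd (d - 1) M ≤ (EE j M r d : ℝ) := by linarith
    have h14 := hC M hM0 r hr' h13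
    have h15 := hlow M hMM2 r hr'
    unfold exs at h14 h15
    have h16 : (0 : ℝ) ≤ (((H k j M r d : ℤ) - EE j M r d : ℤ) : ℝ) := by
      push_cast
      exact h15
    have h17 : (((H k j M r d : ℤ) - EE j M r d : ℤ) : ℝ) < ((1 : ℤ) : ℝ) := by
      push_cast
      exact h14
    have h18 : (0 : ℤ) ≤ (H k j M r d : ℤ) - EE j M r d := by exact_mod_cast h16
    have h19 : (H k j M r d : ℤ) - EE j M r d < 1 := Int.cast_lt.1 h17
    omega
  · -- differences in r
    intro M r _ _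
    have h1 := hR2 j M r d (by omega)
    rw [if_pos hjd.le] at h1
    show (EE j M r d : ℝ) - (EE j M (r + 1) d : ℝ) = (EE j M r (d - j) : ℝ)
    rw [h1]
    push_cast
    ring
  · -- differences in M
    intro M r hM _
    have hM1' : 1 ≤ M := (le_max_right _ _).trans ((le_max_right _ _).trans hM)
    have h1 := hR1 j (M - 1) r (d - 1) (by omega)
    rw [Nat.sub_add_cancel hM1', Nat.sub_add_cancel hd1] at h1
    show (EE j M r d : ℝ) - (EE j (M - 1) r d : ℝ) = (EE j M r (d - 1) : ℝ)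
    rw [h1]
    push_cast
    ring
  · -- bounds
    intro M r hM hr
    have hMM1 : M1 ≤ M := (le_max_left _ _).trans hM
    have hMM0 : 1 ≤ M := (le_max_right _ _).trans ((le_max_right _ _).trans hM)
    have hMpos : (0 : ℝ) < M := by exact_mod_cast hMM0
    have h1 := hE1 (d - 1) (by omega) M r hMM1 (hup M r hr)
    have h2 := hE1 (d - j) (by omega) M r hMM1 (hup M r hr)
    refine ⟨h1.1, h1.2.trans ?_, lt_of_lt_of_le ?_ h2.1, h2.2.trans ?_⟩
    · exact mul_le_mul_of_nonneg_right hD2C (by positivity)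
    · positivity
    · exact mul_le_mul_of_nonneg_right hD2C (by positivity)
  · intro M r hM hr
    have h1 := hE2 M r hM (hup M r hr)
    exact ((le_abs_self _).trans h1).trans (mul_le_mul_of_nonneg_right hD2C (by positivity))
  · intro M r hM hr hr2
    have hMM0 : 1 ≤ M := (le_max_right _ _).trans ((le_max_right _ _).trans hM)
    have h1 := (hE3 M r hMM0 hr).2
    have h2 := stp_bern cs hcs0.le j d M r (by omega) hjd hMM0 hr2
    have h3 := mul_le_mul_of_nonneg_left h2 (by linarith : 0 ≤ C2)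
    have h4 : 0 ≤ (C2 + (1 + (d : ℝ)) ^ d) * (M : ℝ) ^ (d - 1) := by positivity
    show (EE j M r d : ℝ) ≤ D2 * (M : ℝ) ^ (d - 1)
    rw [hD2]
    linarith
  · intro M
    rw [he0]
  · intro M r hM hr
    have h1 := (hHUP k j M r d (by omega)).1
    have h2 := hE2 M r hM (hup M r hr)
    have h3 := neg_abs_le (EE j M r d : ℝ)
    have h4 := stp_choose M d hM
    have h5 : (H k j M r d : ℝ) ≤ (((M + d - 1).choose d : ℕ) : ℝ) := by exact_mod_cast h1
    have h6 : 0 ≤ (C2 + C2 * cs * j) * (M : ℝ) ^ d := by positivity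
    unfold exs
    rw [hD2]
    linarith
  · intro M r hM hr
    have hMM2 : M2 ≤ M := (le_max_left _ _).trans ((le_max_right _ _).trans hM)
    exact (hT M hMM2 r (by linarith)).1

end Pool.Agent.Helper53.HF
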